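import Pool.Agent.Lib_helper69.QB.Defs

/-!
# MP_859019, one pure state: the matrices

`W(y) = (φφᵀ, diag β)`, `φ_j = √y_j`; `h_{PQ}(y) = Tr (P ⊗ φφᵀ + Q ⊗ diag β)^p`.
-/

set_option autoImplicit false

open scoped BigOperators ComplexOrder Kronecker MatrixOrder Topology Real
open MeasureTheory Set Matrix Filter

namespace Pool.Agent.OPS

open Pool.Agent.RC Pool.Agent.LDK

variable {m ι : Type} [Fintype m] [DecidableEq m] [Fintype ι] [DecidableEq ι]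

/-- `φφᵀ` with `φ_j = √y_j` -/
noncomputable def phiM (y : ι → ℝ) : Matrix ι ι ℂ :=
  Matrix.of fun i j => ((√(y i) * √(y j) : ℝ) : ℂ)

/-- `P ⊗ φφᵀ + Q ⊗ diag β` -/
noncomputable def XX (P Q : Matrix m m ℂ) (be y : ι → ℝ) : Matrix (m × ι) (m × ι) ℂ :=
  P ⊗ₖ phiM y + Q ⊗ₖ Matrix.diagonal (fun j => (be j : ℂ))

/-- `Tr (P ⊗ φφᵀ + Q ⊗ diag β)^p` -/
noncomputable def hPQ (p : ℝ) (P Q : Matrix m m ℂ) (be y : ι → ℝ) : ℝ :=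
  trF (fun x => x ^ p) (XX P Q be y)

/-- the similar affine matrix `P ⊗ 1yᵀ + Q ⊗ diag β` -/
noncomputable def XA (P Q : Matrix m m ℂ) (be y : ι → ℝ) : Matrix (m × ι) (m × ι) ℂ :=
  P ⊗ₖ (Matrix.of fun _ j => (y j : ℂ)) + Q ⊗ₖ Matrix.diagonal (fun j => (be j : ℂ))

/-- `S_b = (z - b Q)⁻¹` -/
noncomputable def SS (Q : Matrix m m ℂ) (b : ℝ) (z : ℂ) : Matrix m m ℂ :=
  (z • (1 : Matrix m m ℂ) - (b : ℂ) • Q)⁻¹

/-- `τ = (P⁻¹ - ∑ y_j S_j)⁻¹` -/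
noncomputable def tau (P Q : Matrix m m ℂ) (be y : ι → ℝ) (z : ℂ) : Matrix m m ℂ :=
  (P⁻¹ - ∑ j, (y j : ℂ) • SS Q (be j) z)⁻¹

/-- `F(z) = ∑ y_j (- Tr [S_j, τ]²)` -/
noncomputable def FF (P Q : Matrix m m ℂ) (be y : ι → ℝ) (z : ℂ) : ℂ :=
  ∑ j, (y j : ℂ) * -(((SS Q (be j) z * tau P Q be y z - tau P Q be y z * SS Q (be j) z) *
    (SS Q (be j) z * tau P Q be y z - tau P Q be y z * SS Q (be j) z)).trace)

/-- block DER: the derivatives along the coordinate directions and the operator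
`∑ y_j ∂_j² - (p-1) ∂_{j0}` -/
def DerTarget : Prop :=
  ∀ (m ι : Type) [Fintype m] [DecidableEq m] [Fintype ι] [DecidableEq ι] (P Q : Matrix m m ℂ),
    P.PosDef → Q.PosDef → ∀ (be : ι → ℝ) (j0 : ι), be j0 = 0 → (∀ j, j ≠ j0 → 0 < be j) →
    ∀ y : ι → ℝ, (∀ j, 0 < y j) → ∀ p : ℝ,
    ∃ (D2 : ι → ℝ) (D1 c ρ : ℝ), 0 < ρ ∧ ρ < c ∧
      (∀ hX : (XX P Q be y).IsHermitian, ∀ i, |hX.eigenvalues i - c| < ρ) ∧
      (∀ hQ : Q.IsHermitian, ∀ j, j ≠ j0 → ∀ i, |be j * hQ.eigenvalues i - c| < ρ) ∧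
      (∀ j, Pool.Agent.QB.C2at (fun x => hPQ p P Q be (y + Pi.single j x)) (D2 j)) ∧
      HasDerivAt (fun x => hPQ p P Q be (y + Pi.single j0 x)) D1 0 ∧
      ((∑ j, y j * D2 j - (p - 1) * D1 : ℝ) : ℂ) = -(p / 2 : ℝ) *
        ((2 * π * Complex.I : ℂ)⁻¹ * ∮ z in C(c, ρ), z ^ ((p - 1 : ℝ) : ℂ) * FF P Q be y z)

/-- block POS (III): the contour integral is nonnegative for `4 < p < 5` -/
def PosTarget (p : ℝ) : Prop :=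
  ∀ (m ι : Type) [Fintype m] [DecidableEq m] [Fintype ι] [DecidableEq ι] (P Q : Matrix m m ℂ),
    P.PosDef → Q.PosDef → ∀ (be : ι → ℝ) (j0 : ι), be j0 = 0 → (∀ j, j ≠ j0 → 0 < be j) →
    ∀ y : ι → ℝ, (∀ j, 0 < y j) → ∀ c ρ : ℝ, 0 < ρ → ρ < c →
      (∀ hX : (XX P Q be y).IsHermitian, ∀ i, |hX.eigenvalues i - c| < ρ) →
      (∀ hQ : Q.IsHermitian, ∀ j, j ≠ j0 → ∀ i, |be j * hQ.eigenvalues i - c| < ρ) →
      0 ≤ ((2 * π * Complex.I : ℂ)⁻¹ *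
        ∮ z in C(c, ρ), z ^ ((p - 1 : ℝ) : ℂ) * FF P Q be y z).re

end Pool.Agent.OPS
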