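import Pool.Agent.Lib_helper69.QB.MP

/-!
# MP_859019, one pure state: the linear maximum principle on the orthant

`J` is nonnegative on the orthant if it is nonnegative on its boundary, bounded below by
`- C (1 + |y|)^(p-1)`, and `∑ y_j ∂_j² J - (p - 1) ∂_0 J ≤ 0` in the interior.
-/

set_option autoImplicit false

open scoped BigOperators Topology
open Set Filter

namespace Pool.Agent.Lib_helper69.OPS

open Pool.Agent.QB

variable {ι : Type} [Fintype ι] [DecidableEq ι]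

theorem sum_single (y : ι → ℝ) (j : ι) (x : ℝ) :
    ∑ i, (y + Pi.single j x : ι → ℝ) i = (∑ i, y i) + x := by
  simp [Finset.sum_add_distrib]

/-- second derivative of `x ↦ (S + x)^s` at `0` -/
theorem C2at_shift {S : ℝ} (hS : 0 < S) (s : ℝ) :
    C2at (fun x => (S + x) ^ s) (s * (s - 1) * S ^ (s - 2)) := by
  have key : ∀ q : ℝ, ∀ x : ℝ, 0 < S + x →
      HasDerivAt (fun x => (S + x) ^ q) (q * (S + x) ^ (q - 1)) x := by
    intro q x hx
    have h1 : HasDerivAt (fun x : ℝ => S + x) 1 x := (hasDerivAt_id x).const_add S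
    have h2 := h1.rpow_const (p := q) (Or.inl hx.ne')
    simpa [mul_comm, mul_left_comm, mul_assoc] using h2
  refine ⟨fun x => s * (S + x) ^ (s - 1), ?_, ?_⟩
  · have hev : ∀ᶠ x in 𝓝 (0 : ℝ), 0 < S + x := by
      have hc : ContinuousAt (fun x : ℝ => S + x) 0 := by fun_prop
      exact hc.eventually (Ioi_mem_nhds (by simpa using hS))
    filter_upwards [hev] with x hx
    exact key s x hx
  · have h := (key (s - 1) 0 (by simpa using hS)).const_mul s
    have e : s * ((s - 1) * (S + 0) ^ (s - 1 - 1)) = s * (s - 1) * S ^ (s - 2) := by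
      rw [add_zero, mul_assoc]
      congr 3
      ring
    rw [e] at h
    exact h

theorem hasDeriv_shift {S : ℝ} (hS : 0 < S) (s : ℝ) :
    HasDerivAt (fun x => (S + x) ^ s) (s * S ^ (s - 1)) 0 := by
  have h1 : HasDerivAt (fun x : ℝ => S + x) 1 0 := (hasDerivAt_id (0 : ℝ)).const_add S
  have h2 := h1.rpow_const (p := s) (Or.inl (by simpa using hS.ne'))
  simpa [mul_comm, mul_left_comm, mul_assoc] using h2

/-- growth: `C (1 + S)^(p-1) ≤ ε S^s` for large `S` if `s > p - 1 > 0` -/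
theorem growth {p s ε C : ℝ} (hp : 1 < p) (hs : p - 1 < s) (hε : 0 < ε) :
    ∃ R : ℝ, 0 < R ∧ ∀ S : ℝ, R ≤ S → C * (1 + S) ^ (p - 1) ≤ ε * S ^ s := by
  have h1 : Tendsto (fun S : ℝ => S ^ (s - (p - 1))) atTop atTop :=
    tendsto_rpow_atTop (by linarith)
  obtain ⟨R, hR⟩ := (h1.eventually_ge_atTop (|C| * 2 ^ (p - 1) / ε)).exists_forall_of_atTop
  refine ⟨max R 1, lt_of_lt_of_le one_pos (le_max_right _ _), fun S hS => ?_⟩
  have hS1 : 1 ≤ S := (le_max_right _ _).trans hS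
  have hSR : R ≤ S := (le_max_left _ _).trans hS
  have hS0 : 0 < S := by linarith
  have h2 := hR S hSR
  rw [div_le_iff₀ hε] at h2
  have h3 : (1 + S) ^ (p - 1) ≤ 2 ^ (p - 1) * S ^ (p - 1) := by
    rw [← Real.mul_rpow (by norm_num) hS0.le]
    exact Real.rpow_le_rpow (by linarith) (by linarith) (by linarith)
  have h4 : S ^ s = S ^ (s - (p - 1)) * S ^ (p - 1) := by
    rw [← Real.rpow_add hS0]; congr 1; ring
  have h5 : 0 ≤ S ^ (p - 1) := Real.rpow_nonneg hS0.le _
  have h6 : 0 ≤ (1 + S) ^ (p - 1) := Real.rpow_nonneg (by linarith) _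
  calc C * (1 + S) ^ (p - 1) ≤ |C| * (1 + S) ^ (p - 1) :=
        mul_le_mul_of_nonneg_right (le_abs_self C) h6
    _ ≤ |C| * (2 ^ (p - 1) * S ^ (p - 1)) := mul_le_mul_of_nonneg_left h3 (abs_nonneg C)
    _ = (|C| * 2 ^ (p - 1)) * S ^ (p - 1) := by ring
    _ ≤ (S ^ (s - (p - 1)) * ε) * S ^ (p - 1) := mul_le_mul_of_nonneg_right h2 h5
    _ = ε * S ^ s := by rw [h4]; ring

/-- **The linear maximum principle on the orthant.** -/
theorem mp_orthant (j0 : ι) {p : ℝ} (hp : 1 < p) (J : (ι → ℝ) → ℝ)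
    (hc : ContinuousOn J {y | ∀ j, 0 ≤ y j})
    (hb : ∀ y : ι → ℝ, (∀ j, 0 ≤ y j) → (∃ j, y j = 0) → 0 ≤ J y) (C : ℝ)
    (hg : ∀ y : ι → ℝ, (∀ j, 0 ≤ y j) → -(C * (1 + ∑ j, y j) ^ (p - 1)) ≤ J y)
    (hop : ∀ y : ι → ℝ, (∀ j, 0 < y j) → ∃ (D2 : ι → ℝ) (D1 : ℝ),
      (∀ j, C2at (fun x => J (y + Pi.single j x)) (D2 j)) ∧
      HasDerivAt (fun x => J (y + Pi.single j0 x)) D1 0 ∧
      ∑ j, y j * D2 j - (p - 1) * D1 ≤ 0) :
    ∀ y : ι → ℝ, (∀ j, 0 ≤ y j) → 0 ≤ J y := by
  intro y1 hy1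
  by_contra hneg
  push Not at hneg
  set s : ℝ := p - 1 / 2 with hs
  have hs0 : 0 < s := by linarith
  set B : (ι → ℝ) → ℝ := fun y => (∑ j, y j) ^ s with hB
  have hB0 : ∀ y : ι → ℝ, (∀ j, 0 ≤ y j) → 0 ≤ B y := fun y hy =>
    Real.rpow_nonneg (Finset.sum_nonneg fun j _ => hy j) _
  obtain ⟨ε, hε, hε1⟩ : ∃ ε : ℝ, 0 < ε ∧ J y1 + ε * B y1 < 0 := by
    refine ⟨-J y1 / (2 * (B y1 + 1)), ?_, ?_⟩
    · have := hB0 y1 hy1
      exact div_pos (by linarith) (by linarith)
    · have h1 := hB0 y1 hy1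
      have h2 : -J y1 / (2 * (B y1 + 1)) * B y1 ≤ -J y1 / 2 := by
        rw [div_mul_eq_mul_div, div_le_div_iff₀ (by linarith) (by norm_num)]
        nlinarith
      linarith
  obtain ⟨R, hR0, hR⟩ := growth (C := C) hp (show p - 1 < s by linarith) hε
  set R' : ℝ := max R (∑ j, y1 j) with hR'
  set K : Set (ι → ℝ) := {y | (∀ j, 0 ≤ y j) ∧ ∑ j, y j ≤ R'} with hK
  have hKc : IsCompact K := by
    have hcl : IsClosed K := by
      have h1 : K = (⋂ j, {y : ι → ℝ | 0 ≤ y j}) ∩ {y | ∑ j, y j ≤ R'} := by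
        ext y; simp [hK]
      rw [h1]
      refine IsClosed.inter (isClosed_iInter fun j => ?_) ?_
      · exact isClosed_le continuous_const (continuous_apply j)
      · exact isClosed_le (by fun_prop) continuous_const
    have hsub : K ⊆ Set.Icc (0 : ι → ℝ) (fun _ => R') := by
      intro y hy
      refine ⟨fun j => hy.1 j, fun j => ?_⟩
      exact (Finset.single_le_sum (fun i _ => hy.1 i) (Finset.mem_univ j)).trans hy.2
    exact isCompact_Icc.of_isClosed_subset hcl hsub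
  have hy1K : y1 ∈ K := ⟨hy1, le_max_right _ _⟩
  have hΦc : ContinuousOn (fun y => J y + ε * B y) K := by
    refine ContinuousOn.add (hc.mono fun y hy => hy.1) ?_
    refine ContinuousOn.mul continuousOn_const ?_
    have h1 : Continuous fun y : ι → ℝ => ∑ j, y j := by fun_prop
    exact (h1.rpow_const fun y => Or.inr hs0.le).continuousOn
  obtain ⟨y, hyK, hymin⟩ := hKc.exists_isMinOn ⟨y1, hy1K⟩ hΦc
  have hyv : J y + ε * B y < 0 := lt_of_le_of_lt (hymin hy1K) hε1
  have hy0 := hyK.1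
  have hpos : ∀ j, 0 < y j := by
    intro j
    rcases (hy0 j).lt_or_eq with h | h
    · exact h
    · exfalso
      have h1 := hb y hy0 ⟨j, h.symm⟩
      have h2 := mul_nonneg hε.le (hB0 y hy0)
      linarith
  have hS : 0 < ∑ j, y j := Finset.sum_pos (fun j _ => hpos j) ⟨j0, Finset.mem_univ j0⟩
  have hSR : ∑ j, y j < R' := by
    by_contra hn
    push Not at hn
    have h1 := hR (∑ j, y j) ((le_max_left _ _).trans hn)
    have h2 := hg y hy0
    have h3 : ε * B y = ε * (∑ j, y j) ^ s := rfl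
    linarith
  -- directional local minima
  have hloc : ∀ j, ∀ᶠ x in 𝓝 (0 : ℝ),
      J (y + Pi.single j (0 : ℝ)) + ε * B (y + Pi.single j (0 : ℝ)) ≤
        J (y + Pi.single j x) + ε * B (y + Pi.single j x) := by
    intro j
    have e1 : ∀ᶠ x in 𝓝 (0 : ℝ), -(y j) < x :=
      Ioi_mem_nhds (by linarith [hpos j])
    have e2 : ∀ᶠ x in 𝓝 (0 : ℝ), x < R' - ∑ i, y i := Iio_mem_nhds (by linarith)
    filter_upwards [e1, e2] with x h1 h2
    have h3 : y + Pi.single j x ∈ K := by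
      refine ⟨fun i => ?_, ?_⟩
      · by_cases h : i = j
        · subst h; simp; linarith
        · simp [Pi.single_eq_of_ne h, hy0 i]
      · rw [sum_single]; linarith
    simpa using hymin h3
  obtain ⟨D2, D1, hD2, hD1, hle⟩ := hop y hpos
  set S : ℝ := ∑ j, y j with hSdef
  have hBs : ∀ j x, B (y + Pi.single j x) = (S + x) ^ s := by
    intro j x
    simp only [hB]
    rw [sum_single]
  have h2 : ∀ j, 0 ≤ D2 j + ε * (s * (s - 1) * S ^ (s - 2)) := by
    intro j
    have h3 : C2at (fun x => J (y + Pi.single j x) + ε * B (y + Pi.single j x))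
        (D2 j + ε * (s * (s - 1) * S ^ (s - 2))) := by
      refine (hD2 j).add (C2at.const_mul ε ?_)
      simp only [hBs]
      exact C2at_shift hS s
    exact h3.nonneg_of_min (hloc j)
  have h1 : D1 + ε * (s * S ^ (s - 1)) = 0 := by
    have h3 : HasDerivAt (fun x => J (y + Pi.single j0 x) + ε * B (y + Pi.single j0 x))
        (D1 + ε * (s * S ^ (s - 1))) 0 := by
      refine hD1.add (HasDerivAt.const_mul ε ?_)
      simp only [hBs]
      exact hasDeriv_shift hS s
    exact (show IsLocalMin (fun x => J (y + Pi.single j0 x) + ε * B (y + Pi.single j0 x)) 0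
      from hloc j0).hasDerivAt_eq_zero h3
  have h3 : 0 ≤ ∑ j, y j * (D2 j + ε * (s * (s - 1) * S ^ (s - 2))) :=
    Finset.sum_nonneg fun j _ => mul_nonneg (hy0 j) (h2 j)
  have h4 : ∑ j, y j * (D2 j + ε * (s * (s - 1) * S ^ (s - 2))) =
      ∑ j, y j * D2 j + ε * (s * (s - 1)) * (S * S ^ (s - 2)) := by
    simp only [mul_add, Finset.sum_add_distrib, ← Finset.sum_mul, ← hSdef]
    ring
  have h5 : S * S ^ (s - 2) = S ^ (s - 1) := by
    have e : S ^ (s - 1) = S ^ (1 + (s - 2)) := by congr 1; ring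
    rw [e, Real.rpow_add hS, Real.rpow_one]
  rw [h4, h5] at h3
  have h6 : 0 < S ^ (s - 1) := Real.rpow_pos_of_pos hS _
  have h7 : ε * (s * (s - 1)) * S ^ (s - 1) - (p - 1) * (ε * (s * S ^ (s - 1))) < 0 := by
    have : ε * (s * (s - 1)) * S ^ (s - 1) - (p - 1) * (ε * (s * S ^ (s - 1))) =
        (ε * s * S ^ (s - 1)) * (s - p) := by ring
    rw [this]
    exact mul_neg_of_pos_of_neg (by positivity) (by rw [hs]; linarith)
  have h8 : D1 = -(ε * (s * S ^ (s - 1))) := by linarith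
  rw [h8] at hle
  linarith [mul_comm (p - 1) (ε * (s * S ^ (s - 1)))]

end Pool.Agent.Lib_helper69.OPS
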